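import Pool.Agent.Lib.MP_776403_ag.SD.Q1.FinL

/-!
# Projective manifolds of degree at most `n - 1` are complete intersections

`X ⊂ ℙ^(n+c)` is a projective manifold of dimension `n`, not contained in a hyperplane, of codimension
`c ≥ 3` and degree `D ≤ n - 1`, `I` its homogeneous ideal, `H` the hyperplane class.  Published theorems
give: `-K_X = (n + 1 - s) H` for an integer `s ≤ n`; `H^i(X, O_X(k)) = 0` for all `k` and `0 < i < n`, so
the ring `⊕ H^0(X, O_X(k))` is Cohen-Macaulay; by duality its `h`-vector `(h_0, ..., h_s)` is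
symmetric.  These are the hypotheses of the theorem (in numerical form), with Castelnuovo's bound
`D ≥ (s - 1) c + 2`, and `s ≥ 4` (the `X` with `s ≤ 3` are classified).
-/

set_option autoImplicit false

open MvPolynomial

noncomputable section

namespace Pool.Agent.Results.MP_776403_ag.FullRange

/-- The polynomial ring `ℂ[x_0, ..., x_N]`. -/
abbrev Sx (N : ℕ) : Type := MvPolynomial (Fin (N + 1)) ℂ

/-- The space `ℂ^(N+1)`. -/
abbrev Vx (N : ℕ) : Type := Fin (N + 1) → ℂ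

variable {N : ℕ}

/-- `I` is a homogeneous ideal. -/
def IsHom (I : Ideal (Sx N)) : Prop := ∀ F ∈ I, ∀ m : ℕ, homogeneousComponent m F ∈ I

/-- The cone in `ℂ^(N+1)` over the zero set `X` of `I` in `ℙ^N`. -/
def zer (I : Ideal (Sx N)) : Set (Vx N) := {y | ∀ F ∈ I, eval y F = 0}

/-- The gradient of `F` at `y`. -/
def grad (F : Sx N) (y : Vx N) : Vx N := fun i => eval y (pderiv i F)

/-- The projective scheme `X` of `I` is smooth of codimension `c`: near each of its points its ideal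
is generated by `c` forms with linearly independent differentials. -/
def Smooth (I : Ideal (Sx N)) (c : ℕ) : Prop :=
  ∀ y ∈ zer I, y ≠ 0 → ∃ (F : Fin c → Sx N) (f : Fin c → ℕ) (h : Sx N) (e : ℕ),
    (∀ i, F i ∈ I ∧ (F i).IsHomogeneous (f i)) ∧ h.IsHomogeneous e ∧ eval y h ≠ 0 ∧
    LinearIndependent ℂ (fun i => grad (F i) y) ∧
    ∀ G ∈ I, h * G ∈ Ideal.span (Set.range F)

/-- The degree `m` part of `S / I`, `S = ℂ[x_0, ..., x_N]`. -/
def gr (I : Ideal (Sx N)) (m : ℕ) : Submodule ℂ (Sx N ⧸ I) :=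
  (homogeneousSubmodule (Fin (N + 1)) ℂ m).map (Ideal.Quotient.mkₐ ℂ I).toLinearMap

/-- `f` (extended by zero) is a regular function, homogeneous of degree `k`, on the punctured cone
over `X`: an element of `H^0(X, O_X(k))`. -/
def IsReg (I : Ideal (Sx N)) (k : ℕ) (f : Vx N → ℂ) : Prop :=
  (∀ y, y ∉ zer I ∨ y = 0 → f y = 0) ∧
  ∀ y ∈ zer I, y ≠ 0 → ∃ (P Q : Sx N) (e : ℕ), P.IsHomogeneous (e + k) ∧ Q.IsHomogeneous e ∧
    eval y Q ≠ 0 ∧ ∀ z ∈ zer I, z ≠ 0 → f z * eval z Q = eval z P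

/-- `∑_{i ≤ s} h_i binom (n + k - i) n` (terms with `i > k` are zero). -/
def hsum (n s : ℕ) (h : ℕ → ℕ) (k : ℕ) : ℕ :=
  ∑ i ∈ Finset.range (s + 1), h i * (if i ≤ k then Nat.choose (n + (k - i)) n else 0)

/-- Let `X ⊂ ℙ^(n+c)` be a projective manifold of dimension `n` and codimension `c ≥ 3`, not contained
in a hyperplane, with the homogeneous prime ideal `I`.  Let `s ≥ 4` and `h_0 = 1, h_1, ..., h_s` be natural
numbers, `h_(s-i) = h_i`, such that the Hilbert polynomial of `X` is `∑ h_i binom (n + k - i) n` and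
`h^0(X, O_X(k)) ≤ ∑_{i ≤ k} h_i binom (n + k - i) n` for all `k ≥ 0`.  Then `D = ∑ h_i` is the degree of
`X`.  If `(s - 1) c + 2 ≤ D ≤ n - 1` then `X` is a complete intersection: `I` is generated by `c` forms, of
degrees `d_i ≥ 2`. -/
theorem result (n c s : ℕ) (hc : 3 ≤ c) (hs : 4 ≤ s) (I : Ideal (Sx (n + c))) (hI : I.IsPrime)
    (hIh : IsHom I) (hnd : ∀ F ∈ I, F.IsHomogeneous 1 → F = 0) (hX : Smooth I c)
    (h : ℕ → ℕ) (h0 : h 0 = 1) (hsym : ∀ i ≤ s, h (s - i) = h i)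
    (hHP : ∀ᶠ k : ℕ in Filter.atTop, Module.finrank ℂ (gr I k) = hsum n s h k)
    (hReg : ∀ (k r : ℕ) (f : Fin r → (Vx (n + c) → ℂ)), (∀ i, IsReg I k (f i)) →
      LinearIndependent ℂ f → r ≤ hsum n s h k)
    (hCas : (s - 1) * c + 2 ≤ ∑ i ∈ Finset.range (s + 1), h i)
    (hD : ∑ i ∈ Finset.range (s + 1), h i ≤ n - 1) :
    ∃ (d : Fin c → ℕ) (G : Fin c → Sx (n + c)), (∀ i, 2 ≤ d i ∧ (G i).IsHomogeneous (d i)) ∧
      I = Ideal.span (Set.range G) :=
  Pool.Agent.Lib.MP_776403_ag.SD.Q1.wQ1L (n + c) n c s I h rfl hc hs hI hIh hnd hX h0 hsym hHP hReg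
    hCas (by omega)

end Pool.Agent.Results.MP_776403_ag.FullRange
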