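import Pool.Agent.Lib.MP_776403_ag.NS.E

/-!
# Integrality of the normal Chern roots of Fano manifolds of large index
-/

namespace Pool.Agent.Results.MP_776403_ag.NumericalSplitting

open Pool.Agent.Lib.MP_776403_ag.NS

/-- Let `c ≥ 0` and let `x_1, ..., x_c` be nonzero complex numbers with sum a natural number `a`,
`3 ≤ a ≤ N`.  Let `P = rrPoly N x` be the Riemann-Roch polynomial
`P(k) = ∑_S (-1)^|S| binom(N + k - ∑_{i ∈ S} x_i, N)`, the Hilbert polynomial of a projective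
manifold of codimension `c` in `ℙ^N` whose normal bundle has the Chern roots `x_i H`.  Suppose that
`P(-k) = 0` for `1 ≤ k ≤ N - a` (Kodaira vanishing: `K_X = -(N + 1 - a) H`), `P(0) = 1`,
`P(1) = N + 1` (`X` nondegenerate and linearly normal) and `N - a ≥ 2^c - 6`.  Then every `x_i` is
an integer `≥ 2`: numerically `X` is a complete intersection. -/
theorem result (c N a : ℕ) (x : Fin c → ℂ) (hx : ∀ i, x i ≠ 0) (ha : ∑ i, x i = a)
    (ha3 : 3 ≤ a) (haN : a ≤ N) (hN : a + 2 ^ c ≤ N + 6)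
    (hz : ∀ k : ℕ, 1 ≤ k → a + k ≤ N → rrPoly N x (-(k : ℂ)) = 0)
    (h0 : rrPoly N x 0 = 1) (h1 : rrPoly N x 1 = N + 1) :
    ∀ i, ∃ m : ℕ, 2 ≤ m ∧ x i = m :=
  main c N a x hx ha ha3 haN hN hz h0 h1

end Pool.Agent.Results.MP_776403_ag.NumericalSplitting
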