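import Pool.Agent.Lib.MP_776403_ag.SD.Q1.FinL

/-!
# Projective manifolds of degree at most `n - 1` are complete intersections

`X ⊂ ℙ^(n+c)` is a projective manifold of dimension `n` and codimension `c`, not contained in a
hyperplane, and `I` its homogeneous ideal. Let `R = ⊕ H^0(X, O_X(k))`. If `R` is Cohen-Macaulay (it is,
by the theorems of Kodaira and Barth-Larsen, for every `X` of dimension `n ≥ 2 c + 1` on which `-K_X` is
ample) then its Hilbert function is `∑ h_i binom (n + k - i) n` with natural numbers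
`h_0 = 1, h_1, …, h_s`, and the Hilbert polynomial of `X` is given by the same formula. This (in the weak
form `h^0(O_X(k)) ≤ ∑ h_i binom (n + k - i) n`) is the only hypothesis on `X` in the theorem.
-/

set_option autoImplicit false

open MvPolynomial

noncomputable section

namespace Pool.Agent.Results.MP_776403_ag.SmallDegree

/-- The polynomial ring `ℂ[x_0, ..., x_N]`. -/
abbrev Sx (N : ℕ) : Type := MvPolynomial (Fin (N + 1)) ℂ

/-- The space `ℂ^(N+1)`. -/
abbrev Vx (N : ℕ) : Type := Fin (N + 1) → ℂ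

variable {N : ℕ}

/-- `I` is a homogeneous ideal. -/
def IsHom (I : Ideal (Sx N)) : Prop := ∀ F ∈ I, ∀ m : ℕ, homogeneousComponent m F ∈ I

/-- The cone in `ℂ^(N+1)` over the zero set `X` of `I` in `ℙ^N`. -/
def zer (I : Ideal (Sx N)) : Set (Vx N) := {y | ∀ F ∈ I, eval y F = 0}

/-- The gradient of `F` at `y`. -/
def grad (F : Sx N) (y : Vx N) : Vx N := fun i => eval y (pderiv i F)

/-- The projective scheme `X` of `I` is smooth of codimension `c`: near each of its points its ideal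
is generated by `c` forms with linearly independent differentials. -/
def Smooth (I : Ideal (Sx N)) (c : ℕ) : Prop :=
  ∀ y ∈ zer I, y ≠ 0 → ∃ (F : Fin c → Sx N) (f : Fin c → ℕ) (h : Sx N) (e : ℕ),
    (∀ i, F i ∈ I ∧ (F i).IsHomogeneous (f i)) ∧ h.IsHomogeneous e ∧ eval y h ≠ 0 ∧
    LinearIndependent ℂ (fun i => grad (F i) y) ∧
    ∀ G ∈ I, h * G ∈ Ideal.span (Set.range F)

/-- The degree `m` part of `S / I`, `S = ℂ[x_0, ..., x_N]`. -/
def gr (I : Ideal (Sx N)) (m : ℕ) : Submodule ℂ (Sx N ⧸ I) :=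
  (homogeneousSubmodule (Fin (N + 1)) ℂ m).map (Ideal.Quotient.mkₐ ℂ I).toLinearMap

/-- `f` (extended by zero) is a regular function, homogeneous of degree `k`, on the punctured cone
over `X`: an element of `H^0(X, O_X(k))`. -/
def IsReg (I : Ideal (Sx N)) (k : ℕ) (f : Vx N → ℂ) : Prop :=
  (∀ y, y ∉ zer I ∨ y = 0 → f y = 0) ∧
  ∀ y ∈ zer I, y ≠ 0 → ∃ (P Q : Sx N) (e : ℕ), P.IsHomogeneous (e + k) ∧ Q.IsHomogeneous e ∧
    eval y Q ≠ 0 ∧ ∀ z ∈ zer I, z ≠ 0 → f z * eval z Q = eval z P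

/-- `∑_{i ≤ s} h_i binom (n + k - i) n` (terms with `i > k` are zero): the Hilbert function of a
graded Cohen-Macaulay ring of dimension `n + 1` with the `h`-vector `(h_0, ..., h_s)`. -/
def hsum (n s : ℕ) (h : ℕ → ℕ) (k : ℕ) : ℕ :=
  ∑ i ∈ Finset.range (s + 1), h i * (if i ≤ k then Nat.choose (n + (k - i)) n else 0)

/-- Let `X ⊂ ℙ^(n+c)` be a projective manifold of dimension `n` and codimension `c ≥ 1`, not contained
in a hyperplane, with the homogeneous prime ideal `I`. Suppose that there are natural numbers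
`h_0 = 1, h_1, …, h_s` such that the Hilbert polynomial of `X` is `∑ h_i binom (n + k - i) n` and
`h^0(X, O_X(k)) ≤ ∑_{i ≤ k} h_i binom (n + k - i) n` for all `k ≥ 0`. Then `∑ h_i = deg X`. If
`n ≥ deg X + 1` and `n ≥ 2 c + 2 s + 1` then `X` is a complete intersection: `I` is generated by `c` forms,
of degrees `d_i ≥ 2`. -/
theorem result (n c s : ℕ) (hc : 1 ≤ c) (I : Ideal (Sx (n + c))) (hI : I.IsPrime) (hIh : IsHom I)
    (hnd : ∀ F ∈ I, F.IsHomogeneous 1 → F = 0) (hX : Smooth I c)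
    (h : ℕ → ℕ) (h0 : h 0 = 1)
    (hHP : ∀ᶠ k : ℕ in Filter.atTop, Module.finrank ℂ (gr I k) = hsum n s h k)
    (hReg : ∀ (k r : ℕ) (f : Fin r → (Vx (n + c) → ℂ)), (∀ i, IsReg I k (f i)) →
      LinearIndependent ℂ f → r ≤ hsum n s h k)
    (hdeg : ∑ i ∈ Finset.range (s + 1), h i + 1 ≤ n) (hs : 2 * c + 2 * s + 1 ≤ n) :
    ∃ (d : Fin c → ℕ) (G : Fin c → Sx (n + c)), (∀ i, 2 ≤ d i ∧ (G i).IsHomogeneous (d i)) ∧
      I = Ideal.span (Set.range G) :=
  Pool.Agent.Lib.MP_776403_ag.SD.Q1.wQS (n + c) n c s I h rfl hc hI hIh hnd hX h0 hHP hReg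
    (by omega) hdeg

end Pool.Agent.Results.MP_776403_ag.SmallDegree
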