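import Pool.Agent.Lib.MP_776403_ag.SD.UN.Main

/-!
# Projective manifolds of dimension `n ≥ 2 deg X + 1` are complete intersections

`X ⊂ ℙ^(n+c)` is a projective manifold of dimension `n`, codimension `c` and degree `D`, not contained in
a hyperplane, and `I` its homogeneous ideal.  If `n ≥ 2 D + 1` then `X` is a complete intersection.  There
is no other hypothesis.
-/

set_option autoImplicit false

open MvPolynomial

noncomputable section

namespace Pool.Agent.Results.MP_776403_ag.TwiceDegree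

/-- The polynomial ring `ℂ[x_0, ..., x_N]`. -/
abbrev Sx (N : ℕ) : Type := MvPolynomial (Fin (N + 1)) ℂ

/-- The space `ℂ^(N+1)`. -/
abbrev Vx (N : ℕ) : Type := Fin (N + 1) → ℂ

variable {N : ℕ}

/-- `I` is a homogeneous ideal. -/
def IsHom (I : Ideal (Sx N)) : Prop := ∀ F ∈ I, ∀ m : ℕ, homogeneousComponent m F ∈ I

/-- The cone in `ℂ^(N+1)` over the zero set `X` of `I` in `ℙ^N`. -/
def zer (I : Ideal (Sx N)) : Set (Vx N) := {y | ∀ F ∈ I, eval y F = 0}

/-- The gradient of `F` at `y`. -/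
def grad (F : Sx N) (y : Vx N) : Vx N := fun i => eval y (pderiv i F)

/-- The projective scheme `X` of `I` is smooth of codimension `c`: near each of its points its ideal
is generated by `c` forms with linearly independent differentials. -/
def Smooth (I : Ideal (Sx N)) (c : ℕ) : Prop :=
  ∀ y ∈ zer I, y ≠ 0 → ∃ (F : Fin c → Sx N) (f : Fin c → ℕ) (h : Sx N) (e : ℕ),
    (∀ i, F i ∈ I ∧ (F i).IsHomogeneous (f i)) ∧ h.IsHomogeneous e ∧ eval y h ≠ 0 ∧
    LinearIndependent ℂ (fun i => grad (F i) y) ∧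
    ∀ G ∈ I, h * G ∈ Ideal.span (Set.range F)

/-- The degree `m` part of `S / I`, `S = ℂ[x_0, ..., x_N]`. -/
def gr (I : Ideal (Sx N)) (m : ℕ) : Submodule ℂ (Sx N ⧸ I) :=
  (homogeneousSubmodule (Fin (N + 1)) ℂ m).map (Ideal.Quotient.mkₐ ℂ I).toLinearMap

/-- `X` has dimension `n` and degree `D`: `n! dim (S / I)_m / m^n` tends to `D`, i.e. the Hilbert
polynomial of `X` has the leading term `D m^n / n!`. -/
def HasDeg (I : Ideal (Sx N)) (n D : ℕ) : Prop :=
  Filter.Tendsto (fun m : ℕ => (n.factorial : ℝ) * (Module.finrank ℂ (gr I m) : ℝ) / (m : ℝ) ^ n)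
    Filter.atTop (nhds (D : ℝ))

/-- Let `X ⊂ ℙ^(n+c)` be a projective manifold of dimension `n`, codimension `c ≥ 1` and degree `D`, not
contained in a hyperplane, with the homogeneous prime ideal `I`.  If `n ≥ 2 D + 1` then `X` is a complete
intersection: `I` is generated by `c` forms, of degrees `d_i ≥ 2`. -/
theorem result (n c D : ℕ) (hc : 1 ≤ c) (I : Ideal (Sx (n + c))) (hI : I.IsPrime) (hIh : IsHom I)
    (hnd : ∀ F ∈ I, F.IsHomogeneous 1 → F = 0) (hX : Smooth I c) (hD : HasDeg I n D)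
    (hn : 2 * D + 1 ≤ n) :
    ∃ (d : Fin c → ℕ) (G : Fin c → Sx (n + c)), (∀ i, 2 ≤ d i ∧ (G i).IsHomogeneous (d i)) ∧
      I = Ideal.span (Set.range G) :=
  Pool.Agent.Lib.MP_776403_ag.SD.UN.cUNU (n + c) n c D I rfl hc hI hIh hnd hX hD hn

end Pool.Agent.Results.MP_776403_ag.TwiceDegree
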